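import Mathlib
import Pool.Agent.H29.EulerMult

namespace Pool.Agent.Results.MP_a2af9e_co.Multiplicity

open Finset Polynomial

/-- `des_D(σ)`: the number of arcs `u → v` of `D` with `σ(u) > σ(v)`. -/
def des {n : ℕ} (D : Fin n → Fin n → Prop) [DecidableRel D] (σ : Equiv.Perm (Fin n)) : ℕ :=
  (univ.filter fun p : Fin n × Fin n => D p.1 p.2 ∧ σ p.1 > σ p.2).card

/-- The Eulerian polynomial `A_D(t)`. -/
noncomputable def eulerian {n : ℕ} (D : Fin n → Fin n → Prop) [DecidableRel D] : ℤ[X] :=
  ∑ σ : Equiv.Perm (Fin n), X ^ des D σ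

/-- `D` is an orientation of the complete multipartite graph whose parts are the fibres of
`part`: no arc inside a part, and exactly one arc between two vertices of different parts. -/
def IsOrientation {n k : ℕ} (part : Fin n → Fin k) (D : Fin n → Fin n → Prop) : Prop :=
  (∀ u v, D u v → part u ≠ part v) ∧ ∀ u v, part u ≠ part v → (D u v ↔ ¬ D v u)

theorem result (n k : ℕ) (part : Fin n → Fin k) (D : Fin n → Fin n → Prop) [DecidableRel D]
    (hD : IsOrientation part D) :
    ((eulerian D).map (Int.castRingHom ℂ)).rootMultiplicity (-1) =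
      (univ.filter fun i : Fin k => Odd (univ.filter fun v => part v = i).card).card / 2 := by
  have h1 := eq_rootMultiplicity_map (p := eulerian D) (f := Int.castRingHom ℂ)
    (RingHom.injective_int _) (-1)
  have h2 : (Int.castRingHom ℂ) (-1) = -1 := by simp
  rw [h2] at h1
  rw [← h1, rootMultiplicity_eq_natTrailingDegree]
  have h3 := Pool.Agent.H29.EulerMult.trailing D part hD.1 hD.2 univ
  rw [Finset.card_univ, Fintype.card_fin,
    ← Pool.Agent.H29.EulerMult.link_perm D (fun u h => hD.1 u u h rfl)] at h3
  refine Eq.trans ?_ h3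
  congr 1
  simp only [eulerian, Polynomial.sum_comp, X_pow_comp]
  rfl

end Pool.Agent.Results.MP_a2af9e_co.Multiplicity
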